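import Pool.Agent.NGM.StmtsL

/-!
# NGM, row GRO: the induction of Gromov's theorem for groups with the maximal condition
-/

set_option autoImplicit false

open scoped Classical Pointwise

universe u

namespace Pool.Agent.NGM.H17

/-- every element lies in some power of a generating set -/
lemma mem_pow {Q : Type u} [Group Q] {K : Finset Q} (hK : GenSet K) (q : Q) :
    ∃ n : ℕ, q ∈ K ^ n := by
  have hq : q ∈ Subgroup.closure (K : Set Q) := by
    rw [hK.top]
    exact Subgroup.mem_top q
  induction hq using Subgroup.closure_induction with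
  | mem x hx => exact ⟨1, by rw [pow_one]; exact hx⟩
  | one => exact ⟨0, by rw [pow_zero]; exact Finset.mem_one.2 rfl⟩
  | mul x y _ _ hx hy =>
    obtain ⟨a, ha⟩ := hx
    obtain ⟨b, hb⟩ := hy
    exact ⟨a + b, by rw [pow_add]; exact Finset.mul_mem_mul ha hb⟩
  | inv x _ hx =>
    obtain ⟨a, ha⟩ := hx
    refine ⟨a, ?_⟩
    have hi : K⁻¹ = K := by
      ext s
      rw [Finset.mem_inv']
      constructor
      · intro h
        have h2 := hK.inv _ h
        rwa [inv_inv] at h2
      · exact hK.inv s
    have h1 : (K ^ a)⁻¹ = K ^ a := by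
      rw [← inv_pow, hi]
    rw [← h1]
    exact Finset.inv_mem_inv ha

/-- growth exponent `0`: the group is finite -/
lemma fin_zero {Q : Type u} [Group Q] {K : Finset Q} (hK : GenSet K) (h : PolyIo K 0) :
    Finite Q := by
  obtain ⟨C, hC⟩ := h
  by_contra hcon
  rw [not_finite_iff_infinite] at hcon
  obtain ⟨S, hS⟩ := Infinite.exists_subset_card_eq Q (C + 1)
  choose nn hnn using mem_pow hK
  obtain ⟨m, hm, hm2⟩ := (Filter.frequently_atTop.1 hC) (S.sup nn)
  have hsub : S ⊆ K ^ m := by
    intro s hs
    exact Finset.pow_subset_pow_right hK.one ((Finset.le_sup (f := nn) hs).trans hm) (hnn s)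
  have h1 := Finset.card_le_card hsub
  rw [hS] at h1
  unfold gr at hm2
  rw [pow_zero, mul_one] at hm2
  omega

/-- a finitely generated group has a finite symmetric generating set which contains `1` -/
lemma exists_gen {Q : Type u} [Group Q] (h : (⊤ : Subgroup Q).FG) : ∃ K : Finset Q, GenSet K := by
  obtain ⟨S, hS⟩ := h
  refine ⟨insert 1 (S ∪ S⁻¹), ?_, ?_, ?_⟩
  · exact Finset.mem_insert_self _ _
  · intro s hs
    rw [Finset.mem_insert, Finset.mem_union, Finset.mem_inv'] at hs ⊢
    rcases hs with h | h | h
    · left
      rw [h, inv_one]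
    · right
      right
      rwa [inv_inv]
    · right
      left
      exact h
  · rw [eq_top_iff, ← hS]
    apply Subgroup.closure_mono
    intro s hs
    simp only [Finset.coe_insert, Finset.coe_union, Set.mem_insert_iff, Set.mem_union]
    right
    left
    exact hs

/-- finite groups are almost polycyclic -/
lemma ap_finite {Q : Type u} [Group Q] [Finite Q] : AP Q := by
  refine ⟨(⊥ : Subgroup Q), Subgroup.FiniteIndex.index_ne_zero,
    (inferInstance : Group.IsSolvable (⊥ : Subgroup Q)), ?_⟩
  intro K
  haveI : Finite (⊥ : Subgroup Q) := inferInstance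
  haveI : Finite K := inferInstance
  exact (Group.fg_iff_subgroup_fg K).1 inferInstance

theorem gro (hHRM : HrmStmt.{u}) (hVIZ : VizStmt.{u}) (hKER : KerStmt.{u})
    (hEXT : ExtStmt.{u}) : GroStmt.{u} := by
  have key : ∀ (D : ℕ) (Q : Type u) [Group Q], (∀ H : Subgroup Q, H.FG) →
      ∀ K : Finset Q, GenSet K → PolyIo K D → AP Q := by
    intro D
    induction D with
    | zero =>
      intro Q _ _ K hK hP
      haveI := fin_zero hK hP
      exact ap_finite
    | succ D ih =>
      intro Q _ hmax K hK hP
      rcases finite_or_infinite Q with hf | hi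
      · exact ap_finite
      · obtain ⟨n, π, b, hb, hC⟩ := hHRM Q K (D + 1) hK hP hi
        obtain ⟨H, f, hH, hf⟩ := hVIZ Q K (D + 1) hK hP n π b hb hC
        have hmax' : ∀ S : Subgroup f.ker, S.FG := by
          intro S
          have h1 := hmax (S.map (H.subtype.comp f.ker.subtype))
          rw [Subgroup.fg_iff_submonoid_fg] at h1 ⊢
          refine Submonoid.FG.map_injective (H.subtype.comp f.ker.subtype) ?_ ?_
          · intro x y hxy
            exact Subtype.ext (Subtype.ext hxy)
          · exact h1
        obtain ⟨K', hK'⟩ := exists_gen (hmax' ⊤)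
        have h2 := hKER Q K D hK hP H f hf K' hK'
        exact hEXT Q hmax H f hH hf (ih f.ker hmax' K' hK' h2)
  intro Q _ hmax K D hK hP
  exact key D Q hmax K hK hP

end Pool.Agent.NGM.H17
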